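import Mathlib

set_option autoImplicit false

namespace Pool.Agent.Results.MP_231d99_co.GapColouring

universe v

variable {X : Type v}

/-- `x` is eventually periodic: `x_{i+p} = x_i` for all `i ≥ N`, for some `p ≥ 1`, `N`. -/
def EventuallyPeriodic (x : ℕ → X) : Prop :=
  ∃ p N : ℕ, 1 ≤ p ∧ ∀ i, N ≤ i → x (i + p) = x i

/-- The word `u` occurs in `x = x_1 x_2 x_3 ⋯` at position `n ≥ 1`:
`u = x_n x_{n+1} ⋯ x_{n+|u|-1}`. -/
def OccursAt (x : ℕ → X) (u : List X) (n : ℕ) : Prop :=
  1 ≤ n ∧ ∀ (i : ℕ) (h : i < u.length), u[i] = x (n + i)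

/-- `u` is a factor of `x`: nonempty, and it occurs somewhere. -/
def IsFactor (x : ℕ → X) (u : List X) : Prop :=
  u ≠ [] ∧ ∃ n, OccursAt x u n

/-- `A_x(u)`: the position of the first occurrence of `u`. -/
noncomputable def A (x : ℕ → X) (u : List X) : ℕ := sInf {n | OccursAt x u n}

/-- `B_x(u) = A_x(u) + |u|`. -/
noncomputable def B (x : ℕ → X) (u : List X) : ℕ := A x u + u.length

/-- `u_{k_1} u_{k_2} ⋯ u_{k_m}` for the list `ks = [k_1, …, k_m]`. -/
def cat (u : ℕ → List X) (ks : List ℕ) : List X := (ks.map u).flatten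

/-- The sequence `u` of factors of `x` is `C`-good for the colouring `χ`. -/
def IsGood {κ : Type} (x : ℕ → X) (χ : List X → κ) (C : ℕ) (u : ℕ → List X) : Prop :=
  (∀ n, IsFactor x (u n)) ∧
  (∀ n, B x (u n) ≤ A x (u (n + 1)) ∧ A x (u (n + 1)) ≤ B x (u n) + C) ∧
  ∃ c : κ, ∀ ks : List ℕ, ks ≠ [] → ks.Pairwise (· < ·) → χ (cat u ks) = c

lemma occursAt_A {x : ℕ → X} {u : List X} (h : IsFactor x u) : OccursAt x u (A x u) :=
  Nat.sInf_mem h.2

lemma A_le {x : ℕ → X} {u : List X} {n : ℕ} (h : OccursAt x u n) : A x u ≤ n :=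
  Nat.sInf_le h

/-- A fast growing function controlling periods. -/
lemma exists_f {x : ℕ → X} (hx : ¬ EventuallyPeriodic x) :
    ∃ f : ℕ → ℕ, (∀ m, m < f m) ∧ (∀ m, 2 * f m < f (m + 1)) ∧
      (∀ m a p, 1 ≤ p → p ≤ m → a ≤ m → ∃ i, a ≤ i ∧ i + p < f m ∧ x (i + p) ≠ x i) := by
  have h1 : ∀ a p : ℕ, ∃ i, 1 ≤ p → (a ≤ i ∧ x (i + p) ≠ x i) := by
    intro a p
    by_cases hp : 1 ≤ p
    · by_contra hcon
      push Not at hcon
      apply hx
      refine ⟨p, a, hp, fun i hi => ?_⟩
      exact (hcon i).2 hi
    · exact ⟨0, fun h => absurd h hp⟩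
  choose D hD using h1
  let F : ℕ → ℕ := fun m =>
    ∑ a ∈ Finset.range (m + 1), ∑ p ∈ Finset.range (m + 1), (D a p + p + 1)
  have hF : ∀ m a p, a ≤ m → p ≤ m → D a p + p + 1 ≤ F m := by
    intro m a p ha hp
    have e1 : D a p + p + 1 ≤ ∑ p ∈ Finset.range (m + 1), (D a p + p + 1) :=
      Finset.single_le_sum (f := fun p => D a p + p + 1) (fun _ _ => Nat.zero_le _)
        (Finset.mem_range.mpr (by omega))
    have e2 : ∑ p ∈ Finset.range (m + 1), (D a p + p + 1) ≤ F m :=
      Finset.single_le_sum (f := fun a => ∑ p ∈ Finset.range (m + 1), (D a p + p + 1))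
        (fun _ _ => Nat.zero_le _) (Finset.mem_range.mpr (by omega))
    exact e1.trans e2
  let f : ℕ → ℕ := fun m => Nat.rec (F 0 + 1) (fun m r => 2 * r + F (m + 1) + (m + 2)) m
  have f0 : f 0 = F 0 + 1 := rfl
  have fs : ∀ m, f (m + 1) = 2 * f m + F (m + 1) + (m + 2) := fun m => rfl
  have hfF : ∀ m, F m ≤ f m := by
    intro m
    cases m with
    | zero => rw [f0]; omega
    | succ m => rw [fs]; omega
  refine ⟨f, ?_, ?_, ?_⟩
  · intro m
    cases m with
    | zero => rw [f0]; omega
    | succ m => rw [fs]; omega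
  · intro m
    rw [fs]; omega
  · intro m a p hp hpm ham
    refine ⟨D a p, (hD a p hp).1, ?_, (hD a p hp).2⟩
    have := hF m a p ham hpm
    have := hfF m
    omega

/-- The level sequence. -/
def tseq (f : ℕ → ℕ) : ℕ → ℕ
  | 0 => 0
  | j + 1 => f (tseq f j) + tseq f j + j + 1

/-- The level of `n`. -/
def lev (f : ℕ → ℕ) (n : ℕ) : ℕ := Nat.findGreatest (fun j => tseq f j ≤ n) n

lemma le_tseq (f : ℕ → ℕ) (j : ℕ) : j ≤ tseq f j := by
  cases j with
  | zero => exact Nat.zero_le _
  | succ j => simp only [tseq]; omega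

lemma tseq_mono (f : ℕ → ℕ) : Monotone (tseq f) :=
  monotone_nat_of_le_succ fun j => by simp only [tseq]; omega

lemma tseq_lev_le (f : ℕ → ℕ) (n : ℕ) : tseq f (lev f n) ≤ n :=
  Nat.findGreatest_spec (P := fun j => tseq f j ≤ n) (Nat.zero_le n) (Nat.zero_le n)

lemma lt_tseq_lev (f : ℕ → ℕ) (n : ℕ) : n < tseq f (lev f n + 1) := by
  by_contra hcon
  push Not at hcon
  have h1 : lev f n + 1 ≤ n := (le_tseq f _).trans hcon
  exact Nat.findGreatest_is_greatest (P := fun j => tseq f j ≤ n) (Nat.lt_succ_self _) h1 hcon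

lemma le_lev {f : ℕ → ℕ} {n j : ℕ} (h : tseq f j ≤ n) : j ≤ lev f n := by
  by_contra hcon
  push Not at hcon
  have := tseq_mono f (Nat.succ_le_of_lt hcon)
  have h2 := lt_tseq_lev f n
  simp only [Nat.succ_eq_add_one] at this
  omega

lemma lev_le {f : ℕ → ℕ} {n j : ℕ} (h : n < tseq f (j + 1)) : lev f n ≤ j := by
  by_contra hcon
  push Not at hcon
  have := tseq_mono f (Nat.succ_le_of_lt hcon)
  have h2 := tseq_lev_le f n
  simp only [Nat.succ_eq_add_one] at this
  omega

lemma cat_append (u : ℕ → List X) (ks ks' : List ℕ) :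
    cat u (ks ++ ks') = cat u ks ++ cat u ks' := by
  simp [cat]

lemma cat_singleton (u : ℕ → List X) (k : ℕ) : cat u [k] = u k := by
  simp [cat]

lemma cat_cons (u : ℕ → List X) (k : ℕ) (ks : List ℕ) : cat u (k :: ks) = u k ++ cat u ks := by
  simp [cat]

/-- Length bound for concatenations. -/
lemma len_bound {u : ℕ → List X} {a : ℕ → ℕ} (ha : ∀ n, a n + (u n).length ≤ a (n + 1)) :
    ∀ (ks : List ℕ) (k₀ m : ℕ), k₀ ≤ m → ks.Pairwise (· < ·) → (∀ k ∈ ks, k₀ ≤ k ∧ k < m) →
      a k₀ + (cat u ks).length ≤ a m := by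
  have hmono : Monotone a := monotone_nat_of_le_succ fun n => (Nat.le_add_right _ _).trans (ha n)
  intro ks
  induction ks with
  | nil =>
    intro k₀ m hk _ _
    simpa [cat] using hmono hk
  | cons k ks ih =>
    intro k₀ m hk hpw hmem
    rw [List.pairwise_cons] at hpw
    have hk1 := hmem k (by simp)
    have h2 := ih (k + 1) m (by omega) hpw.2 (fun k' hk' =>
      ⟨hpw.1 k' hk', (hmem k' (by simp [hk'])).2⟩)
    have h3 := ha k
    have h4 := hmono hk1.1
    rw [cat_cons, List.length_append]
    omega

lemma f_mono {f : ℕ → ℕ} (hf2 : ∀ m, 2 * f m < f (m + 1)) : Monotone f :=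
  monotone_nat_of_le_succ fun m => by have := hf2 m; omega

/-- A word that starts early compared with its length has no small period. -/
lemma claimA {x : ℕ → X} {f : ℕ → ℕ}
    (hf3 : ∀ m a p, 1 ≤ p → p ≤ m → a ≤ m → ∃ i, a ≤ i ∧ i + p < f m ∧ x (i + p) ≠ x i)
    {w : List X} (hw : IsFactor x w) (hlen : f (A x w) ≤ w.length) {p : ℕ} (hp : 1 ≤ p)
    (hfp : f p ≤ w.length) :
    ∃ (i : ℕ) (h : i + p < w.length), w[i + p] ≠ w[i] := by
  obtain ⟨i, hi1, hi2, hi3⟩ := hf3 (max (A x w) p) (A x w) p hp (le_max_right _ _)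
    (le_max_left _ _)
  have hfm : f (max (A x w) p) ≤ w.length := by
    rcases le_total (A x w) p with h | h
    · rw [max_eq_right h]; exact hfp
    · rw [max_eq_left h]; exact hlen
  have hocc := (occursAt_A hw).2
  have hlt : (i - A x w) + p < w.length := by omega
  refine ⟨i - A x w, hlt, ?_⟩
  rw [hocc _ hlt, hocc _ (by omega)]
  have e1 : A x w + (i - A x w + p) = i + p := by omega
  have e2 : A x w + (i - A x w) = i := by omega
  rw [e1, e2]
  exact hi3

/-- First occurrences of concatenations are where they have to be. -/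
lemma claimB {x : ℕ → X} {f : ℕ → ℕ} (hf1 : ∀ m, m < f m) (hf2 : ∀ m, 2 * f m < f (m + 1))
    (hf3 : ∀ m a p, 1 ≤ p → p ≤ m → a ≤ m → ∃ i, a ≤ i ∧ i + p < f m ∧ x (i + p) ≠ x i)
    {u : ℕ → List X}
    (hstep : ∀ n, A x (u n) + (u n).length ≤ A x (u (n + 1)))
    (hfac : ∀ ks : List ℕ, ks ≠ [] → ks.Pairwise (· < ·) → IsFactor x (cat u ks))
    (hlen : ∀ ks : List ℕ, ks ≠ [] → ks.Pairwise (· < ·) →
      f (A x (cat u ks)) ≤ (cat u ks).length)
    (ks : List ℕ) (m : ℕ) (hks : ks.Pairwise (· < ·)) (hm : ∀ k ∈ ks, k < m) :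
    A x (cat u (ks ++ [m])) + (cat u ks).length = A x (u m) := by
  have hpw : (ks ++ [m]).Pairwise (· < ·) := by
    rw [List.pairwise_append]
    refine ⟨hks, by simp, ?_⟩
    intro k hk k' hk'
    simp only [List.mem_singleton] at hk'
    subst hk'
    exact hm k hk
  have hne : ks ++ [m] ≠ [] := by simp
  have hwf := hfac _ hne hpw
  have hwl := hlen _ hne hpw
  have hmf : IsFactor x (u m) := by
    have := hfac [m] (by simp) (by simp)
    rwa [cat_singleton] at this
  have hml : f (A x (u m)) ≤ (u m).length := by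
    have := hlen [m] (by simp) (by simp)
    rwa [cat_singleton] at this
  have h0f : IsFactor x (u 0) := by
    have := hfac [0] (by simp) (by simp)
    rwa [cat_singleton] at this
  have hs := len_bound (u := u) (a := fun n => A x (u n)) hstep ks 0 m (Nat.zero_le _) hks
    (fun k hk => ⟨Nat.zero_le _, hm k hk⟩)
  have h01 : 1 ≤ A x (u 0) := (occursAt_A h0f).1
  have hcat : cat u (ks ++ [m]) = cat u ks ++ u m := by
    rw [cat_append, cat_singleton]
  have hlenw : (cat u (ks ++ [m])).length = (cat u ks).length + (u m).length := by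
    rw [hcat, List.length_append]
  have hocc := occursAt_A hwf
  -- `u m` occurs at `A w + s`
  have hocc2 : OccursAt x (u m) (A x (cat u (ks ++ [m])) + (cat u ks).length) := by
    refine ⟨by have := hocc.1; omega, fun i hi => ?_⟩
    have h1 : (cat u ks).length + i < (cat u (ks ++ [m])).length := by omega
    have h2 := hocc.2 _ h1
    rw [show A x (cat u (ks ++ [m])) + (cat u ks).length + i
      = A x (cat u (ks ++ [m])) + ((cat u ks).length + i) by ring, ← h2]
    have h3 : (cat u ks ++ u m)[(cat u ks).length + i]'(by rw [← hcat]; exact h1) = (u m)[i] := by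
      rw [List.getElem_append_right (by omega)]
      congr 1
      omega
    rw [← h3]
    congr 1
    exact hcat.symm
  have hle := A_le hocc2
  by_contra hne2
  have hlt : A x (u m) < A x (cat u (ks ++ [m])) + (cat u ks).length := by omega
  set a := A x (u m) with ha
  set aw := A x (cat u (ks ++ [m])) with haw
  set s := (cat u ks).length with hsdef
  have hfa := hf1 a
  obtain ⟨p, hp⟩ : ∃ p, aw + s = a + p := ⟨aw + s - a, by omega⟩
  have hp1 : 1 ≤ p := by omega
  have hp2 : p + 1 ≤ aw := by omega
  have h2p := hf2 p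
  have hmono := f_mono hf2 hp2
  have hfp : f p ≤ (u m).length := by omega
  obtain ⟨i, hi, hne3⟩ := claimA hf3 hmf hml hp1 hfp
  apply hne3
  rw [(occursAt_A hmf).2 _ hi, hocc2.2 i (by omega)]
  congr 1
  omega

/-- Last component of the colouring: the prefixes of `x` before `A_x(w)` and before `B_x(w)` have
a common suffix of length `s` with `A_x(w) < 2 s`. -/
def SufCond (x : ℕ → X) (w : List X) : Prop :=
  ∃ s, s < A x w ∧ A x w < 2 * s ∧ ∀ t, 1 ≤ t → t ≤ s → x (A x w - t) = x (B x w - t)

open Classical in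
lemma main_aux (x : ℕ → X) (hx : ¬ EventuallyPeriodic x) :
    ∃ χ : List X → Bool × Bool × Bool × Bool, ∀ (C : ℕ) (u : ℕ → List X),
      ¬ IsGood x χ C u := by
  obtain ⟨f, hf1, hf2, hf3⟩ := exists_f hx
  refine ⟨fun w => (decide (IsFactor x w), decide (lev f (A x w) % 2 = 0),
    decide (f (A x w) ≤ w.length), decide (SufCond x w)), ?_⟩
  rintro C u ⟨hfac0, hgap, c, hc⟩
  have hfm := f_mono hf2
  -- the four components
  have hcol : ∀ ks ks' : List ℕ, ks ≠ [] → ks.Pairwise (· < ·) → ks' ≠ [] →
      ks'.Pairwise (· < ·) →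
      (IsFactor x (cat u ks) ↔ IsFactor x (cat u ks')) ∧
      (lev f (A x (cat u ks)) % 2 = 0 ↔ lev f (A x (cat u ks')) % 2 = 0) ∧
      (f (A x (cat u ks)) ≤ (cat u ks).length ↔ f (A x (cat u ks')) ≤ (cat u ks').length) ∧
      (SufCond x (cat u ks) ↔ SufCond x (cat u ks')) := by
    intro ks ks' h1 h2 h3 h4
    have h := (hc ks h1 h2).trans (hc ks' h3 h4).symm
    simp only [Prod.mk.injEq, decide_eq_decide] at h
    exact h
  have hfac : ∀ ks : List ℕ, ks ≠ [] → ks.Pairwise (· < ·) → IsFactor x (cat u ks) := by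
    intro ks h1 h2
    have h := (hcol ks [0] h1 h2 (by simp) (by simp)).1
    rw [h, cat_singleton]
    exact hfac0 0
  have hstep : ∀ n, A x (u n) + (u n).length ≤ A x (u (n + 1)) := fun n => (hgap n).1
  have hgap2 : ∀ n, A x (u (n + 1)) ≤ A x (u n) + (u n).length + C := fun n => (hgap n).2
  have hpos : ∀ n, 1 ≤ (u n).length := by
    intro n
    have := (hfac0 n).1
    rcases hu : u n with _ | ⟨y, l⟩
    · exact absurd hu this
    · simp
  have hge : ∀ n, n + 1 ≤ A x (u n) := by
    intro n
    induction n with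
    | zero => exact (occursAt_A (hfac0 0)).1
    | succ n ih =>
      have := hstep n
      have := hpos n
      omega
  have hlevpar : ∀ n m, lev f (A x (u n)) % 2 = lev f (A x (u m)) % 2 := by
    intro n m
    have h := (hcol [n] [m] (by simp) (by simp) (by simp) (by simp)).2.1
    rw [cat_singleton, cat_singleton] at h
    omega
  -- some block is long compared with its first position
  have hex : ∃ n, f (A x (u n)) ≤ (u n).length := by
    by_contra hcon
    push Not at hcon
    have hlev : ∀ k, lev f (A x (u (tseq f C + k))) = lev f (A x (u (tseq f C))) := by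
      intro k
      induction k with
      | zero => rfl
      | succ k ih =>
        rw [← ih]
        set n := tseq f C + k with hn
        have e1 : tseq f C + (k + 1) = n + 1 := by omega
        rw [e1]
        have hC : C ≤ lev f (A x (u n)) := le_lev (by have := hge n; omega)
        set j := lev f (A x (u n)) with hj
        have hlt := lt_tseq_lev f (A x (u n))
        rw [← hj] at hlt
        have hfl := hfm hlt.le
        have h1 := hgap2 n
        have h2 := hcon n
        have h3 : A x (u (n + 1)) < tseq f (j + 1 + 1) := by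
          have e2 : tseq f (j + 1 + 1) = f (tseq f (j + 1)) + tseq f (j + 1) + (j + 1) + 1 := rfl
          omega
        have h4 : lev f (A x (u (n + 1))) ≤ j + 1 := lev_le h3
        have h5 : j ≤ lev f (A x (u (n + 1))) := by
          apply le_lev
          have h6 := tseq_lev_le f (A x (u n))
          rw [← hj] at h6
          have := hstep n
          omega
        have h7 := hlevpar (n + 1) n
        rw [← hj] at h7
        omega
    have h1 := hlev (tseq f (lev f (A x (u (tseq f C))) + 1))
    set j := lev f (A x (u (tseq f C))) with hj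
    have h2 := hge (tseq f C + tseq f (j + 1))
    have h3 : j + 1 ≤ lev f (A x (u (tseq f C + tseq f (j + 1)))) := le_lev (by omega)
    omega
  have hlen : ∀ ks : List ℕ, ks ≠ [] → ks.Pairwise (· < ·) →
      f (A x (cat u ks)) ≤ (cat u ks).length := by
    obtain ⟨n, hn⟩ := hex
    intro ks h1 h2
    have h := (hcol ks [n] h1 h2 (by simp) (by simp)).2.2.1
    rw [h, cat_singleton]
    exact hn
  have hlen1 : ∀ n, f (A x (u n)) ≤ (u n).length := by
    intro n
    have := hlen [n] (by simp) (by simp)
    rwa [cat_singleton] at this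
  have hB := claimB hf1 hf2 hf3 hstep hfac hlen
  have hBpair : ∀ n m, n < m → A x (u n ++ u m) + (u n).length = A x (u m) := by
    intro n m h
    have := hB [n] m (by simp) (by simpa using h)
    simpa [cat_append, cat_singleton, cat] using this
  have hfacpair : ∀ n m, n < m → IsFactor x (u n ++ u m) := by
    intro n m h
    have := hfac [n, m] (by simp) (by simpa using h)
    simpa [cat] using this
  -- eventually no gaps
  have hz : ∀ n, f C ≤ n → A x (u (n + 1)) = A x (u n) + (u n).length := by
    intro n hn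
    by_contra hne
    have h1 := hstep n
    have h2 := hgap2 n
    have hl : f C ≤ (u n).length := by
      have := hlen1 n
      have := hf1 (A x (u n))
      have := hge n
      omega
    obtain ⟨g, hg⟩ : ∃ g, A x (u (n + 1)) = A x (u n) + (u n).length + g :=
      ⟨A x (u (n + 1)) - (A x (u n) + (u n).length), by omega⟩
    have hg1 : 1 ≤ g := by omega
    have hgC : g ≤ C := by omega
    have hfg : f g ≤ (u n).length := (hfm hgC).trans hl
    obtain ⟨i, hi, hne2⟩ := claimA hf3 (hfac0 n) (hlen1 n) hg1 hfg
    apply hne2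
    have hp := hBpair n (n + 1) (Nat.lt_succ_self n)
    have hocc := (occursAt_A (hfacpair n (n + 1) (Nat.lt_succ_self n))).2
    have e1 : (u n)[i] = x (A x (u n ++ u (n + 1)) + i) := by
      rw [← hocc i (by rw [List.length_append]; omega)]
      rw [List.getElem_append_left]
    rw [e1, (occursAt_A (hfac0 n)).2 _ hi]
    congr 1
    omega
  -- (a) the last component of the colour is `true` on late blocks
  set N := f C with hN
  have hWlen : ∀ k, A x (u N) + (cat u (List.range' N k)).length = A x (u (N + k)) := by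
    intro k
    induction k with
    | zero => simp [cat]
    | succ k ih =>
      rw [List.range'_1_concat, cat_append, cat_singleton, List.length_append,
        ← add_assoc N k 1, hz (N + k) (by omega)]
      omega
  have hWpw : ∀ k, (List.range' N k).Pairwise (· < ·) := fun k => List.pairwise_lt_range'
  have hWmem : ∀ k j, j ∈ List.range' N k → j < N + k := by
    intro k j hj
    rw [List.mem_range'_1] at hj
    exact hj.2
  have htrue : ∃ n, SufCond x (u n) := by
    set k := 2 * A x (u N) + 1 with hk
    refine ⟨N + k, ?_⟩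
    have hl := hWlen k
    set s := (cat u (List.range' N k)).length with hs
    have hgek := hge (N + k)
    have hgeN := hge N
    -- the word `W = u_N ⋯ u_{N+k-1}` occurs first at `A (u N)`
    have hkk : List.range' N k = List.range' N (k - 1) ++ [N + (k - 1)] := by
      rw [← List.range'_1_concat, Nat.sub_add_cancel (by omega)]
    have hAW : A x (cat u (List.range' N k)) = A x (u N) := by
      have h1 := hB (List.range' N (k - 1)) (N + (k - 1)) (hWpw _) (hWmem _)
      rw [← hkk] at h1
      have h2 := hWlen (k - 1)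
      omega
    have hWfac : IsFactor x (cat u (List.range' N k)) :=
      hfac _ (by rw [hkk]; simp) (hWpw k)
    have hpw2 : (List.range' N k ++ [N + k + 1]).Pairwise (· < ·) := by
      rw [List.pairwise_append]
      refine ⟨hWpw k, by simp, ?_⟩
      intro a ha b hb
      simp only [List.mem_singleton] at hb
      subst hb
      have := hWmem k a ha
      omega
    have hVfac : IsFactor x (cat u (List.range' N k ++ [N + k + 1])) :=
      hfac _ (by simp) hpw2
    have hAV : A x (cat u (List.range' N k ++ [N + k + 1])) + s = A x (u (N + k + 1)) :=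
      hB (List.range' N k) (N + k + 1) (hWpw k) (fun j hj => by
        have := hWmem k j hj; omega)
    refine ⟨s, by omega, by omega, ?_⟩
    intro t ht1 ht2
    have hBn : B x (u (N + k)) = A x (u (N + k + 1)) := (hz (N + k) (by omega)).symm
    rw [hBn]
    have hlt : s - t < (cat u (List.range' N k)).length := by omega
    have e1 : (cat u (List.range' N k))[s - t] = x (A x (u (N + k)) - t) := by
      rw [(occursAt_A hWfac).2 _ hlt, hAW]
      congr 1
      omega
    have hlt2 : s - t < (cat u (List.range' N k ++ [N + k + 1])).length := by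
      rw [cat_append, List.length_append]; omega
    have e2 : (cat u (List.range' N k ++ [N + k + 1]))[s - t]
        = x (A x (u (N + k + 1)) - t) := by
      rw [(occursAt_A hVfac).2 _ hlt2]
      congr 1
      omega
    rw [← e1, ← e2]
    have e3 : (cat u (List.range' N k ++ [N + k + 1]))[s - t]
        = (cat u (List.range' N k) ++ cat u [N + k + 1])[s - t]'(by
            rw [← cat_append]; exact hlt2) := by
      congr 1
      exact cat_append _ _ _
    rw [e3, List.getElem_append_left hlt]
  -- (b) it is `false` on `u_N u_{N+3}`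
  have hfalse : ¬ SufCond x (u N ++ u (N + 3)) := by
    rintro ⟨s, hs1, hs2, hs3⟩
    have hA := hBpair N (N + 3) (by omega)
    have hBw : B x (u N ++ u (N + 3)) = A x (u (N + 4)) := by
      have h4 := hz (N + 3) (by omega)
      unfold B
      rw [List.length_append]
      have e : N + 3 + 1 = N + 4 := rfl
      rw [e] at h4
      omega
    rw [hBw] at hs3
    have z0 := hz N (by omega)
    have z1 := hz (N + 1) (by omega)
    have z2 := hz (N + 2) (by omega)
    have e11 : N + 1 + 1 = N + 2 := rfl
    have e12 : N + 2 + 1 = N + 3 := rfl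
    rw [e11] at z1
    rw [e12] at z2
    have l2 := hlen1 (N + 2)
    have g2 := hf1 (A x (u (N + 2)))
    have l1 := hlen1 (N + 1)
    have hge1 := hge (N + 1)
    have hs4 : (u (N + 1)).length ≤ s := by omega
    -- `f |u_N| ≤ |u_{N+1}|`
    have hfl : f (u N).length ≤ (u (N + 1)).length :=
      (hfm (by omega : (u N).length ≤ A x (u (N + 1)))).trans l1
    obtain ⟨i, hi, hne⟩ := claimA hf3 (hfac0 (N + 1)) l1 (hpos N) hfl
    apply hne
    have hA3 := hBpair (N + 1) (N + 3) (by omega)
    have hA4 := hBpair (N + 1) (N + 4) (by omega)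
    have o3 := (occursAt_A (hfacpair (N + 1) (N + 3) (by omega))).2
    have o4 := (occursAt_A (hfacpair (N + 1) (N + 4) (by omega))).2
    have E3 : ∀ (j : ℕ) (hj : j < (u (N + 1)).length),
        (u (N + 1))[j] = x (A x (u (N + 3)) - ((u (N + 1)).length - j)) := by
      intro j hj
      have h := o3 j (by rw [List.length_append]; omega)
      rw [List.getElem_append_left hj] at h
      rw [h]
      congr 1
      omega
    have E4 : ∀ (j : ℕ) (hj : j < (u (N + 1)).length),
        (u (N + 1))[j] = x (A x (u (N + 4)) - ((u (N + 1)).length - j)) := by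
      intro j hj
      have h := o4 j (by rw [List.length_append]; omega)
      rw [List.getElem_append_left hj] at h
      rw [h]
      congr 1
      omega
    have h5 := hs3 ((u (N + 1)).length - (i + (u N).length)) (by omega) (by omega)
    rw [E4 _ hi, E3 i (by omega), ← h5]
    congr 1
    omega
  obtain ⟨n, hn⟩ := htrue
  have h := (hcol [n] [N, N + 3] (by simp) (by simp) (by simp) (by simp)).2.2.2
  rw [cat_singleton] at h
  have e : cat u [N, N + 3] = u N ++ u (N + 3) := by simp [cat]
  rw [e] at h
  exact hfalse (h.mp hn)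

/-- **Positive answer to Q1.** If the infinite word `x = x_1 x_2 ⋯` over an arbitrary alphabet is
not eventually periodic, then there is a colouring of all finite words with 16 colours for which,
whatever `C` is, no sequence of factors of `x` is `C`-good. -/
theorem result (X : Type v) (x : ℕ → X) (hx : ¬ EventuallyPeriodic x) :
    ∃ χ : List X → Fin 16, ∀ C : ℕ, ¬ ∃ u : ℕ → List X, IsGood x χ C u := by
  obtain ⟨χ, hχ⟩ := main_aux x hx
  let e : (Bool × Bool × Bool × Bool) ≃ Fin 16 := Fintype.equivFinOfCardEq (by simp)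
  refine ⟨fun w => e (χ w), fun C => ?_⟩
  rintro ⟨u, h1, h2, c, hc⟩
  refine hχ C u ⟨h1, h2, e.symm c, fun ks hne hpw => ?_⟩
  rw [Equiv.eq_symm_apply]
  exact hc ks hne hpw

end Pool.Agent.Results.MP_231d99_co.GapColouring
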